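import Pool.Agent.U307.NIL.Scal

/-!
# Project NIL: C*-algebras generated by unitaries with nilpotent orbit groups (helper307)
-/

set_option autoImplicit false
set_option linter.unusedSectionVars false

open Filter Topology Finset
open scoped InnerProductSpace Polynomial

namespace Pool.Agent.U307.NIL

open Pool.Agent.Helper188.NCM Pool.Agent.TH261.AB Pool.Agent.TH261.NP Pool.Agent.H500R2.PR.TH6

variable {U : Type} [CStarAlgebra U]

/-- the restriction to the unitary group -/
def sg (α : U →⋆ₐ[ℂ] U) : unitary U →* unitary U where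
  toFun g := ⟨α g, by
    constructor
    · rw [← map_star, ← map_mul, Unitary.star_mul_self_of_mem g.2, map_one]
    · rw [← map_star, ← map_mul, Unitary.mul_star_self_of_mem g.2, map_one]⟩
  map_one' := Subtype.ext (by simp)
  map_mul' g h := Subtype.ext (by simp)

theorem sg_iter (α : U →⋆ₐ[ℂ] U) (n : ℕ) (g : unitary U) :
    ((((sg α)^[n]) g : unitary U) : U) = (α^[n]) (g : U) := by
  induction n generalizing g with
  | zero => rfl
  | succ n ih => rw [Function.iterate_succ_apply, Function.iterate_succ_apply, ih]; rfl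

/-- the group of unitaries generated by an orbit -/
def OG (α : U →⋆ₐ[ℂ] U) (h : unitary U) : Subgroup (unitary U) :=
  Subgroup.closure (Set.range fun n : ℕ => ((sg α)^[n]) h)

/-- `g` is quasi-unipotent for `α`, and the orbit of its difference generates a nilpotent group -/
def QN (α : U →⋆ₐ[ℂ] U) (g : unitary U) : Prop :=
  ∃ m : ℕ, 0 < m ∧ (∃ k : ℕ, (Dg (sg α) m)^[k] g = 1) ∧ Group.IsNilpotent (OG α (Dg (sg α) m g))

/-- the restriction of a representation to the unitary group -/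
noncomputable def rU {K : Type} [NormedAddCommGroup K] [InnerProductSpace ℂ K] [CompleteSpace K]
    (π : U →⋆ₐ[ℂ] (K →L[ℂ] K)) : unitary U →* (K ≃ₗᵢ[ℂ] K) :=
  MonoidHom.mk' (fun g => opU π (g : U) g.2) (by
    intro g h
    refine LinearIsometryEquiv.ext fun ξ => ?_
    rw [opU_apply, Submonoid.coe_mul, map_mul, mul_apply_eq_comp]
    rfl)

theorem rU_apply {K : Type} [NormedAddCommGroup K] [InnerProductSpace ℂ K] [CompleteSpace K]
    (π : U →⋆ₐ[ℂ] (K →L[ℂ] K)) (g : unitary U) (ξ : K) : rU π g ξ = π (g : U) ξ := rfl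

section orbit

variable (α : U →⋆ₐ[ℂ] U) (g : unitary U) (m r : ℕ)

/-- the sequence along a residue class -/
def vr (j : ℕ) : unitary U := ((sg α)^[m * j + r]) g

theorem D_vr (i : ℕ) : D^[i] (vr α g m r) = fun j => ((sg α)^[m * j + r]) ((Dg (sg α) m)^[i] g) := by
  induction i with
  | zero => rfl
  | succ i ih =>
    rw [Function.iterate_succ_apply', ih]
    funext j
    rw [D, Function.iterate_succ_apply', show m * (j + 1) + r = (m * j + r) + m by ring,
      Function.iterate_add_apply _ (m * j + r) m, ← sg_inv, ← sg_mul]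
    rfl

/-- `v 0⁻¹ v j` is in the group generated by the orbit of the difference -/
theorem vr_mem (j : ℕ) : (vr α g m r 0)⁻¹ * vr α g m r j ∈ OG α (Dg (sg α) m g) := by
  induction j with
  | zero => rw [inv_mul_cancel]; exact Subgroup.one_mem _
  | succ j ih =>
    have h1 : (vr α g m r 0)⁻¹ * vr α g m r (j + 1) =
        ((vr α g m r 0)⁻¹ * vr α g m r j) * D (vr α g m r) j := by
      rw [D, mul_assoc, mul_inv_cancel_left]
    rw [h1]
    refine Subgroup.mul_mem _ ih (Subgroup.subset_closure ⟨m * j + r, ?_⟩)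
    exact (congrFun (D_vr α g m r 1) j).symm

/-- the sequence in the nilpotent group -/
def kr (j : ℕ) : OG α (Dg (sg α) m g) := ⟨_, vr_mem α g m r j⟩

theorem D_kr {k : ℕ} (hk : (Dg (sg α) m)^[k] g = 1) : D^[k + 1] (kr α g m r) = fun _ => 1 := by
  funext n
  apply Subtype.ext
  have h1 := D_hom (OG α (Dg (sg α) m g)).subtype (kr α g m r) (k + 1)
  have h2 : (fun n => (OG α (Dg (sg α) m g)).subtype (kr α g m r n)) = fun n => (vr α g m r 0)⁻¹ * vr α g m r n := rfl
  rw [h2, Function.iterate_succ_apply, D_mul_left, ← Function.iterate_succ_apply, D_vr,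
    Function.iterate_succ_apply', hk, Dg_one] at h1
  have h3 := congrFun h1 n
  rw [sg_one] at h3
  exact h3.symm

theorem vr_eq {K : Type} [NormedAddCommGroup K] [InnerProductSpace ℂ K] [CompleteSpace K]
    (π : U →⋆ₐ[ℂ] (K →L[ℂ] K)) (j : ℕ) (ξ : K) :
    π ((α^[m * j + r]) (g : U)) ξ =
      π ((α^[r]) (g : U)) (((rU π).comp (OG α (Dg (sg α) m g)).subtype) (kr α g m r j) ξ) := by
  have h1 : vr α g m r j = vr α g m r 0 * ((vr α g m r 0)⁻¹ * vr α g m r j) := by
    rw [mul_inv_cancel_left]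
  have h2 : π ((α^[m * j + r]) (g : U)) ξ = rU π (vr α g m r j) ξ := by
    rw [rU_apply, vr, sg_iter]
  have h3 : ∀ y : K, rU π (vr α g m r 0) y = π ((α^[r]) (g : U)) y := fun y => by
    rw [rU_apply, vr, sg_iter, mul_zero, zero_add]
  rw [h2, h1, map_mul]
  show rU π (vr α g m r 0) (rU π ((vr α g m r 0)⁻¹ * vr α g m r j) ξ) = _
  rw [h3]
  rfl

end orbit

section gen

variable {γ : U →⋆ₐ[ℂ] U}

theorem iter_prod {v w : U} {τ τ' : ℝ} (hv : γ v = ee τ' • v) (hw : γ w = ee τ • w) (x : U) (n : ℕ) :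
    (γ^[n]) (v * x * w) = ee (n * (τ' + τ)) • (v * (γ^[n]) x * w) := by
  rw [Pool.Agent.TH261.AB.iter_mul, Pool.Agent.TH261.AB.iter_mul, eig_iter hw, eig_iter hv, smul_mul_assoc, mul_smul_comm, smul_mul_assoc, smul_smul,
    ← ee_add, show (n : ℝ) * (τ' + τ) = n * τ + n * τ' by ring]

/-- strong Möbius orthogonality for generators -/
theorem good_gen (hA : MobAll) {g : unitary U} (hg : QN γ g) {v w : U} (hv : Eig γ v) (hw : Eig γ w) :
    Good γ (v * (g : U) * w) := by
  obtain ⟨m, hm, ⟨k, hk⟩, hN⟩ := hg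
  obtain ⟨l, hl, hw⟩ := hw
  obtain ⟨τ, rfl⟩ := exists_ee hl
  obtain ⟨l', hl', hv⟩ := hv
  obtain ⟨τ', rfl⟩ := exists_ee hl'
  intro K _ _ _ π ξ
  refine vav_of_residues (by positivity) (term_le γ (v * (g : U) * w) π ξ) hm fun r hr => ?_
  have h1 := mob_nil hA (D_kr γ g m r hk) ((rU π).comp (OG γ (Dg (sg γ) m g)).subtype) (π w ξ) hm hr (m * (τ' + τ))
  have h2 := ((ee (r * (τ' + τ)) • (π v * π ((γ^[r]) (g : U)))).continuous.tendsto 0).comp h1
  rw [map_zero] at h2
  refine h2.congr fun N => ?_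
  rw [Function.comp_apply, vav, vav, map_smul, map_sum]
  congr 1
  refine Finset.sum_congr rfl fun n _ => ?_
  have e2 : π ((γ^[m * n + r]) (v * (g : U) * w)) ξ = ee ((m * n + r : ℕ) * (τ' + τ)) • π v (π ((γ^[r]) (g : U))
      (((rU π).comp (OG γ (Dg (sg γ) m g)).subtype) (kr γ g m r n) (π w ξ))) := by
    rw [iter_prod hv hw, map_smul, map_mul, map_mul, smul_apply, mul_apply_eq_comp, mul_apply_eq_comp, vr_eq]
  rw [e2, map_smul, map_smul, smul_apply, mul_apply_eq_comp, smul_smul (ee (n * (m * (τ' + τ)))), ← ee_add]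
  congr 3
  push_cast
  ring

/-- the generated algebra -/
theorem good_all' (hA : MobAll)
    (hgen : (Submodule.span ℂ (Prods γ ((fun g : unitary U => (g : U)) '' {g | QN γ g}))).topologicalClosure = ⊤) :
    ∀ x, Good γ x := by
  intro x
  refine Good.of_span (S := Prods γ ((fun g : unitary U => (g : U)) '' {g | QN γ g})) ?_ x (by rw [hgen]; trivial)
  rintro x ⟨_, ⟨g, hg, rfl⟩, v, w, hv, hw, rfl⟩
  exact good_gen hA hg hv hw

/-- the values of a functional on the orbit of a generator -/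
theorem rnp_gen (hD : S_DIL) {g : unitary U} (hg : QN γ g) {v w : U} (hv : Eig γ v) (hw : Eig γ w)
    (ρ : U →L[ℂ] ℂ) : RNP fun n => ρ ((γ^[n]) (v * (g : U) * w)) := by
  obtain ⟨m, hm, ⟨k, hk⟩, hN⟩ := hg
  obtain ⟨l, hl, hw⟩ := hw
  obtain ⟨τ, rfl⟩ := exists_ee hl
  obtain ⟨l', hl', hv⟩ := hv
  obtain ⟨τ', rfl⟩ := exists_ee hl'
  obtain ⟨K, _, _, _, π, hπ⟩ := H759R2.Kad.prove7_rep H759R2.Kad.prove7_jord
    (H759R2.Kad.prove7_univ H759R2.Kad.prove7_gns) U
  obtain ⟨ζ, ω, hρ, -⟩ := hπ ρ.toLinearMap ‖ρ‖ (norm_nonneg _) fun a => ρ.le_opNorm a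
  have hρ' : ∀ a, ρ a = ⟪ζ, π a ω⟫_ℂ := hρ
  refine ⟨m, hm, fun r _ => ?_⟩
  refine ⟨K, inferInstance, inferInstance, inferInstance, OG γ (Dg (sg γ) m g), inferInstance, hN,
    (rU π).comp (OG γ (Dg (sg γ) m g)).subtype, kr γ g m r, k + 1, m * (τ' + τ), π w ω,
    ContinuousLinearMap.adjoint (ee (r * (τ' + τ)) • (π v * π ((γ^[r]) (g : U)))) ζ, D_kr γ g m r hk, fun n => ?_⟩
  show ρ ((γ^[m * n + r]) (v * (g : U) * w)) = _
  rw [hρ', ContinuousLinearMap.adjoint_inner_left, iter_prod hv hw, map_smul, map_mul, map_mul, smul_apply,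
    mul_apply_eq_comp, mul_apply_eq_comp, vr_eq, smul_apply, mul_apply_eq_comp, inner_smul_right, inner_smul_right,
    ← mul_assoc, ← ee_add]
  congr 2
  push_cast
  ring

/-- closure under the span and limits -/
theorem span_closed {w : ℕ → ℂ} {C : ℝ} (hC : 0 ≤ C) (hw : ∀ n, ‖w n‖ ≤ C) (ρ : U →L[ℂ] ℂ) (S : Set U)
    (hS : ∀ a ∈ S, Tendsto (vav fun n => w n * ρ ((γ^[n]) a)) atTop (𝓝 0)) :
    ∀ a ∈ (Submodule.span ℂ S).topologicalClosure, Tendsto (vav fun n => w n * ρ ((γ^[n]) a)) atTop (𝓝 0) := by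
  have hb1 : ∀ (a : U) (n : ℕ), ‖ρ ((γ^[n]) a)‖ ≤ ‖ρ‖ * ‖a‖ := by
    intro a n
    refine (ρ.le_opNorm _).trans ?_
    have := iter_norm γ n a
    gcongr
  have hspan : ∀ a ∈ Submodule.span ℂ S, Tendsto (vav fun n => w n * ρ ((γ^[n]) a)) atTop (𝓝 0) := by
    intro a ha
    induction ha using Submodule.span_induction with
    | mem x hx => exact hS x hx
    | zero =>
      have h0 : ∀ n, (γ^[n]) (0 : U) = 0 := fun n => by
        have := iter_smul γ n 0 0
        rwa [zero_smul, zero_smul] at this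
      have : (vav fun n => w n * ρ ((γ^[n]) (0 : U))) = fun _ => 0 := by
        funext N
        simp [vav, h0]
      rw [this]
      exact tendsto_const_nhds
    | add x y _ _ hx hy =>
      refine (vav_add' hx hy).congr fun N => ?_
      rw [vav, vav]
      congr 1
      exact Finset.sum_congr rfl fun n _ => by rw [Pool.Agent.TH261.AB.iter_add, map_add, mul_add]
    | smul c x _ hx =>
      refine (vav_mul' c hx).congr fun N => ?_
      rw [vav, vav]
      congr 1
      exact Finset.sum_congr rfl fun n _ => by rw [iter_smul, map_smul, smul_eq_mul]; ring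
  intro a ha
  have ha' : a ∈ closure (Submodule.span ℂ S : Set U) := ha
  refine vav_approx fun ε hε => ?_
  obtain ⟨b, hb, hab⟩ := Metric.mem_closure_iff.1 ha' (ε / (C * ‖ρ‖ + 1)) (by positivity)
  refine ⟨_, fun n => ?_, hspan b hb⟩
  rw [← mul_sub, ← map_sub, ← Pool.Agent.TH261.AB.iter_sub, norm_mul]
  have h2 := hw n
  have h3 := hb1 (a - b) n
  rw [dist_eq_norm] at hab
  calc _ ≤ C * (‖ρ‖ * ‖a - b‖) := by gcongr
    _ ≤ C * (‖ρ‖ * (ε / (C * ‖ρ‖ + 1))) := by gcongr
    _ = (C * ‖ρ‖) / (C * ‖ρ‖ + 1) * ε := by ring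
    _ ≤ 1 * ε := by
        gcongr
        rw [div_le_one (by positivity)]
        linarith
    _ = ε := one_mul _

/-- products of the values of functionals -/
theorem multi' (hA : MobAll) (hD : S_DIL)
    (hgen : (Submodule.span ℂ (Prods γ ((fun g : unitary U => (g : U)) '' {g | QN γ g}))).topologicalClosure = ⊤)
    (L : List ((U →L[ℂ] ℂ) × U)) :
    Tendsto (vav fun n => mob n * (L.map fun p => p.1 ((γ^[n]) p.2)).prod) atTop (𝓝 0) := by
  have hb1 : ∀ (ρ : U →L[ℂ] ℂ) (a : U) (n : ℕ), ‖ρ ((γ^[n]) a)‖ ≤ ‖ρ‖ * ‖a‖ := by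
    intro ρ a n
    refine (ρ.le_opNorm _).trans ?_
    have := iter_norm γ n a
    gcongr
  have hb1' : ∀ L : List ((U →L[ℂ] ℂ) × U), ∃ C : ℝ, 0 ≤ C ∧
      ∀ n, ‖(L.map fun p => p.1 ((γ^[n]) p.2)).prod‖ ≤ C := by
    intro L
    induction L with
    | nil => exact ⟨1, zero_le_one, fun n => by simp⟩
    | cons p L ih =>
      obtain ⟨C, hC0, hC⟩ := ih
      refine ⟨‖p.1‖ * ‖p.2‖ * C, by positivity, fun n => ?_⟩
      rw [List.map_cons, List.prod_cons, norm_mul]
      have h2 := hb1 p.1 p.2 n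
      have h3 := hC n
      gcongr
  have key : ∀ (L : List ((U →L[ℂ] ℂ) × U)) (F : ℕ → ℂ), RNP F → (∃ C : ℝ, 0 ≤ C ∧ ∀ n, ‖F n‖ ≤ C) →
      Tendsto (vav fun n => mob n * ((L.map fun p => p.1 ((γ^[n]) p.2)).prod * F n)) atTop (𝓝 0) := by
    intro L
    induction L with
    | nil =>
      rintro F hF ⟨C, hC, hFC⟩
      refine (hF.mob hA hC hFC).congr fun N => ?_
      simp
    | cons p L ih =>
      rintro F hF ⟨C, hC, hFC⟩
      obtain ⟨ρ, a⟩ := p
      obtain ⟨C', hC0', hC'⟩ := hb1' L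
      have hw : ∀ n, ‖mob n * ((L.map fun p => p.1 ((γ^[n]) p.2)).prod * F n)‖ ≤ C' * C := by
        intro n
        rw [norm_mul, norm_mul]
        calc _ ≤ 1 * (C' * C) := by
              gcongr
              · exact norm_mob_le _
              · exact hC' n
              · exact hFC n
          _ = _ := one_mul _
      refine (span_closed (γ := γ) (mul_nonneg hC0' hC) hw ρ
        (Prods γ ((fun g : unitary U => (g : U)) '' {g | QN γ g})) ?_ a (by rw [hgen]; trivial)).congr fun N => ?_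
      · rintro x ⟨_, ⟨g, hg, rfl⟩, v, w, hv, hw', rfl⟩
        refine (ih (fun n => ρ ((γ^[n]) (v * (g : U) * w)) * F n) ((rnp_gen hD hg hv hw' ρ).mul hD hF)
          ⟨‖ρ‖ * ‖v * (g : U) * w‖ * C, by positivity, fun n => ?_⟩).congr fun N => ?_
        · rw [norm_mul]
          have h2 := hb1 ρ (v * (g : U) * w) n
          have h3 := hFC n
          gcongr
        · rw [vav, vav]
          congr 1
          exact Finset.sum_congr rfl fun n _ => by simp only; ring
      · rw [vav, vav]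
        congr 1
        exact Finset.sum_congr rfl fun n _ => by rw [List.map_cons, List.prod_cons]; ring
  refine (key L (fun _ => 1) (RNP.const 1) ⟨1, zero_le_one, fun n => by simp⟩).congr fun N => ?_
  simp

end gen

end Pool.Agent.U307.NIL
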