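import Mathlib

/-!
# Project NIL: averages along polynomial sequences in nilpotent groups of unitaries (helper307)

Statements of the packages. Each package is a theorem `t_X : S_X`.
-/

set_option autoImplicit false

open Filter Topology Finset
open scoped InnerProductSpace Polynomial

namespace Pool.Agent.U307.NIL

/-- the differences `k(n)⁻¹ k(n + 1)` -/
def D {M : Type} [Group M] (k : ℕ → M) (n : ℕ) : M := (k n)⁻¹ * k (n + 1)

/-- the subgroup generated by the `r`-th powers -/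
def Pw (M : Type) [Group M] (r : ℕ) : Subgroup M := Subgroup.closure {x | ∃ g : M, x = g ^ r}

/-- `k` is a polynomial sequence (some iterated difference is trivial) with `k 0 = 1` which generates the nilpotent
group `M`, of class at most `s` -/
structure Seq (M : Type) [Group M] (k : ℕ → M) (s : ℕ) : Prop where
  zero : k 0 = 1
  diff : ∃ K : ℕ, D^[K] k = fun _ => 1
  gen : Subgroup.closure (Set.range k) = ⊤
  cls : Subgroup.upperCentralSeries M s = ⊤

/-- the averages `(1/N) ∑_{n < N} a n` -/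
noncomputable def av {E : Type*} [AddCommGroup E] [Module ℂ E] (a : ℕ → E) (N : ℕ) : E :=
  (N : ℂ)⁻¹ • ∑ n ∈ range N, a n

/-- `exp(2 π i t)` -/
noncomputable def e (t : ℝ) : ℂ := Complex.exp (2 * Real.pi * Complex.I * t)

/-- irreducible: only the scalars commute with all `ρ x` -/
def IrrU {M : Type} [Group M] {K : Type} [NormedAddCommGroup K] [InnerProductSpace ℂ K]
    (ρ : M →* (K ≃ₗᵢ[ℂ] K)) : Prop :=
  ∀ X : K →L[ℂ] K, (∀ x h, X (ρ x h) = ρ x (X h)) → ∃ c : ℂ, ∀ h, X h = c • h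

/-- for some `r > 0` all `r`-th powers act trivially -/
def Tor {M : Type} [Group M] {K : Type} [NormedAddCommGroup K] [InnerProductSpace ℂ K]
    (ρ : M →* (K ≃ₗᵢ[ℂ] K)) : Prop := ∃ r : ℕ, 0 < r ∧ ∀ x ∈ Pw M r, ρ x = 1

/-- AB (Alaoglu–Birkhoff): if `η` is orthogonal to the vectors fixed by `S`, then `0` is in the closed convex hull of
the orbit of `η` under `S`. -/
def S_AB : Prop :=
  ∀ (M : Type) [Group M] (S : Subgroup M) (K : Type) [NormedAddCommGroup K] [InnerProductSpace ℂ K]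
    [CompleteSpace K] (ρ : M →* (K ≃ₗᵢ[ℂ] K)) (η : K),
    (∀ ζ : K, (∀ x ∈ S, ρ x ζ = ζ) → ⟪ζ, η⟫_ℂ = 0) → ∀ ε : ℝ, 0 < ε →
    ∃ (F : Finset M) (c : M → ℝ), (∀ x ∈ F, x ∈ S ∧ 0 ≤ c x) ∧ ∑ x ∈ F, c x = 1 ∧
      ‖∑ x ∈ F, (c x : ℂ) • ρ x η‖ < ε

/-- FIN: the quotient by the `r`-th powers is finite. -/
def S_FIN : Prop :=
  ∀ (M : Type) [Group M] (k : ℕ → M) (s : ℕ), Seq M k s → ∀ r : ℕ, 0 < r → (Pw M r).Normal ∧ (Pw M r).FiniteIndex

/-- EXP: if the center of a nilpotent group has finite exponent, then the group has finite exponent. -/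
def S_EXP : Prop :=
  ∀ (G : Type) [Group G] [Group.IsNilpotent G] (d : ℕ), 0 < d → (∀ z ∈ Subgroup.center G, z ^ d = 1) →
    ∃ e : ℕ, 0 < e ∧ ∀ x : G, x ^ e = 1

/-- CPT: in an irreducible representation of infinite dimension no nonzero compact operator commutes with a normal
subgroup of finite index. -/
def S_CPT : Prop :=
  ∀ (M : Type) [Group M] (S : Subgroup M), S.Normal → S.FiniteIndex →
    ∀ (K : Type) [NormedAddCommGroup K] [InnerProductSpace ℂ K] [CompleteSpace K] (ρ : M →* (K ≃ₗᵢ[ℂ] K)),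
    IrrU ρ → ¬ FiniteDimensional ℂ K → ∀ X : K →L[ℂ] K, IsCompactOperator X →
      (∀ x ∈ S, ∀ h, X (ρ x h) = ρ x (X h)) → X = 0

/-- TEN: the representation `ρ ⊗ ρ̄` on the (completed) tensor product `K ⊗ K*`; its vectors `F` are compact operators
`X F` of `K`, and `Z ξ = ξ ⊗ ξ̄`. -/
def S_TEN : Prop :=
  ∀ (M : Type) [Group M] (K : Type) [NormedAddCommGroup K] [InnerProductSpace ℂ K] [CompleteSpace K]
    (ρ : M →* (K ≃ₗᵢ[ℂ] K)),
    ∃ (E : Type) (_ : NormedAddCommGroup E) (_ : InnerProductSpace ℂ E) (_ : CompleteSpace E)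
      (τ : M →* (E ≃ₗᵢ[ℂ] E)) (Z : K → E) (X : E → (K →L[ℂ] K)),
      (∀ (x y : M) (ξ : K), ⟪τ x (Z ξ), τ y (Z ξ)⟫_ℂ = ((‖⟪ρ x ξ, ρ y ξ⟫_ℂ‖ ^ 2 : ℝ) : ℂ)) ∧
      (∀ x : M, (∃ c : ℂ, ∀ h, ρ x h = c • h) → τ x = 1) ∧
      (∀ F : E, IsCompactOperator (X F)) ∧
      (∀ (F : E) (x : M), τ x F = F → ∀ h, X F (ρ x h) = ρ x (X F h)) ∧
      (∀ (F : E) (ξ : K), X F = 0 → ⟪F, Z ξ⟫_ℂ = 0)

/-- PH: in an irreducible representation of finite dimension the sequence `ρ (k n)` is, along the residue classes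
modulo some `Q`, a polynomial phase times a fixed operator; and some power of all `ρ x` is a scalar. -/
def S_PH : Prop :=
  ∀ (M : Type) [Group M] (k : ℕ → M) (s : ℕ), Seq M k s →
    ∀ (K : Type) [NormedAddCommGroup K] [InnerProductSpace ℂ K] [CompleteSpace K] (ρ : M →* (K ≃ₗᵢ[ℂ] K)),
    IrrU ρ → FiniteDimensional ℂ K →
    (∃ q : ℕ, 0 < q ∧ ∀ x : M, ∃ c : ℂ, ∀ h, ρ (x ^ q) h = c • h) ∧
    ∃ Q : ℕ, 0 < Q ∧ ∀ a : ℕ, ∃ P : ℝ[X], ∀ (j : ℕ) (h : K),
      ρ (k (a + Q * j)) h = e (P.eval (j : ℝ)) • ρ (k a) h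

/-- MOB: Möbius is orthogonal to `ρ (k n)` along residue classes, with linear twists, in finite dimension. -/
def S_MOB : Prop :=
  ∀ (M : Type) [Group M] (k : ℕ → M) (s : ℕ), Seq M k s →
    ∀ (K : Type) [NormedAddCommGroup K] [InnerProductSpace ℂ K] [CompleteSpace K] (ρ : M →* (K ≃ₗᵢ[ℂ] K)),
    IrrU ρ → FiniteDimensional ℂ K → ∀ (m r : ℕ), 0 < m → r < m → ∀ (θ : ℝ) (ξ : K),
      Tendsto (av fun n => (((ArithmeticFunction.moebius (m * n + r) : ℤ) : ℂ) * e (θ * n)) • ρ (k n) ξ)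
        atTop (𝓝 0)

/-- ERG: the averages of `ρ (k n)` tend to zero in irreducible representations of finite dimension which are not
torsion. -/
def S_ERG : Prop :=
  ∀ (M : Type) [Group M] (k : ℕ → M) (s : ℕ), Seq M k s →
    ∀ (K : Type) [NormedAddCommGroup K] [InnerProductSpace ℂ K] [CompleteSpace K] (ρ : M →* (K ≃ₗᵢ[ℂ] K)),
    IrrU ρ → FiniteDimensional ℂ K → ¬ Tor ρ → ∀ ξ : K, Tendsto (av fun n => ρ (k n) ξ) atTop (𝓝 0)

/-- RAIN (after Rainwater and Simons): if the averages of `c n • σ (x n)` tend to zero in each irreducible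
representation `σ`, with the exception of those in which the combinations `b N = ∑_{y ∈ F N} β N y • y` act as the
identity for all large `N`, then the averages of `c n • ρ (x n) η` tend to zero for each vector `η` of any
representation `ρ` with `ρ (b N) η → 0`. -/
def S_RAIN : Prop :=
  ∀ (M : Type) [Group M] (x : ℕ → M) (c : ℕ → ℂ), (∀ n, ‖c n‖ ≤ 1) → ∀ (F : ℕ → Finset M) (β : ℕ → M → ℂ),
    (∀ N, ∑ y ∈ F N, ‖β N y‖ ≤ 1) →
    (∀ (K : Type) [NormedAddCommGroup K] [InnerProductSpace ℂ K] [CompleteSpace K] (σ : M →* (K ≃ₗᵢ[ℂ] K)),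
      IrrU σ → (∀ ζ : K, Tendsto (av fun n => c n • σ (x n) ζ) atTop (𝓝 0)) ∨
        ∀ ζ : K, ∀ᶠ N in atTop, ∑ y ∈ F N, β N y • σ y ζ = ζ) →
    ∀ (K : Type) [NormedAddCommGroup K] [InnerProductSpace ℂ K] [CompleteSpace K] (ρ : M →* (K ≃ₗᵢ[ℂ] K)) (η : K),
      Tendsto (fun N => ∑ y ∈ F N, β N y • ρ y η) atTop (𝓝 0) →
      Tendsto (av fun n => c n • ρ (x n) η) atTop (𝓝 0)

/-- NULL: in infinite dimension all bounded coefficients are possible. -/
def S_NULL (s : ℕ) : Prop :=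
  ∀ (M : Type) [Group M] (k : ℕ → M), Seq M k s →
    ∀ (K : Type) [NormedAddCommGroup K] [InnerProductSpace ℂ K] [CompleteSpace K] (ρ : M →* (K ≃ₗᵢ[ℂ] K)),
    IrrU ρ → ¬ FiniteDimensional ℂ K → ∀ c : ℕ → ℂ, (∀ n, ‖c n‖ ≤ 1) → ∀ ξ : K,
      Tendsto (av fun n => c n • ρ (k n) ξ) atTop (𝓝 0)

/-- POLY: the polynomial mean ergodic theorem for nilpotent groups of class at most `s`. -/
def S_POLY (s : ℕ) : Prop :=
  ∀ (M : Type) [Group M] (k : ℕ → M), Seq M k s →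
    ∀ (K : Type) [NormedAddCommGroup K] [InnerProductSpace ℂ K] [CompleteSpace K] (ρ : M →* (K ≃ₗᵢ[ℂ] K)) (η : K),
    (∀ r : ℕ, 0 < r → ∀ ζ : K, (∀ x ∈ Pw M r, ρ x ζ = ζ) → ⟪ζ, η⟫_ℂ = 0) →
      Tendsto (av fun n => ρ (k n) η) atTop (𝓝 0)

end Pool.Agent.U307.NIL
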