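import Pool.Agent.U307.NIL.Rain
import Pool.Agent.U307.NIL.Cst
import Pool.Agent.U678.NIL.FIN
import Pool.Agent.U338.NIL.CPT
import Pool.Agent.U402.NIL.TEN
import Pool.Agent.U535.NIL.PH
import Pool.Agent.U949.NIL.MOB
import Pool.Agent.U174.NIL.ERG
import Pool.Agent.U891.NIL.NULL
import Pool.Agent.U451.NIL.AB
import Pool.Agent.U15.NIL.DIL

/-!
# Project NIL: the theorems (helper307)
-/

set_option autoImplicit false

open Filter Topology Finset
open scoped InnerProductSpace Polynomial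

namespace Pool.Agent.U307.NIL

theorem t_ph : S_PH := Pool.Agent.U535.NIL.t_PH Pool.Agent.U678.NIL.t_EXP

theorem null_poly' (s : ℕ) : S_NULL s ∧ S_POLY s :=
  null_poly Pool.Agent.U451.NIL.t_AB t_RAIN (Pool.Agent.U174.NIL.t_ERG t_ph)
    (Pool.Agent.U891.NIL.t_NULL Pool.Agent.U402.NIL.TEN.t_TEN Pool.Agent.U338.NIL.t_CPT Pool.Agent.U678.NIL.t_FIN) s

theorem mobAll : MobAll := fun _ _ _ _ hk _ _ _ _ ρ η _ _ hm hr θ =>
  mob_all t_RAIN (Pool.Agent.U949.NIL.t_MOB t_ph) (fun s => (null_poly' s).1) hk ρ η hm hr θ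

theorem dil : S_DIL := Pool.Agent.U15.NIL.t_DIL

end Pool.Agent.U307.NIL
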