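import Pool.Agent.U307.NIL.Stm

/-!
# Project NIL: assembly of the polynomial mean ergodic theorem (helper307)
-/

set_option autoImplicit false

open Filter Topology Finset
open scoped InnerProductSpace Polynomial

namespace Pool.Agent.U307.NIL

/-- an irreducible representation all of whose operators are the identity has finite dimension -/
theorem fin_of_trivial {M : Type} [Group M] {K : Type} [NormedAddCommGroup K] [InnerProductSpace ℂ K]
    (ρ : M →* (K ≃ₗᵢ[ℂ] K)) (hI : IrrU ρ) (h1 : ∀ x, ρ x = 1) : FiniteDimensional ℂ K := by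
  by_cases h0 : ∀ ξ : K, ξ = 0
  · have : Subsingleton K := ⟨fun a b => by rw [h0 a, h0 b]⟩
    infer_instance
  · push Not at h0
    obtain ⟨ξ, hξ⟩ := h0
    set X : K →L[ℂ] K := (innerSL ℂ ξ).smulRight ξ with hX
    obtain ⟨c, hc⟩ := hI X (fun x h => by rw [h1 x]; rfl)
    have hXh : ∀ h, X h = ⟪ξ, h⟫_ℂ • ξ := fun h => by simp [hX]
    have hc0 : c ≠ 0 := by
      intro h
      have h2 := hc ξ
      rw [h, zero_smul, hXh ξ, smul_eq_zero] at h2
      rcases h2 with h2 | h2
      · exact hξ (inner_self_eq_zero.1 h2)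
      · exact hξ h2
    refine FiniteDimensional.of_finrank_pos ?_ |> fun h => h
    have : Module.finrank ℂ K = 1 := by
      refine finrank_eq_one ξ hξ fun w => ⟨c⁻¹ * ⟪ξ, w⟫_ℂ, ?_⟩
      have h2 := hc w
      rw [hXh w] at h2
      rw [mul_smul, h2, smul_smul, inv_mul_cancel₀ hc0, one_smul]
    omega

theorem null_zero : S_NULL 0 := by
  intro M _ k hk K _ _ _ ρ hI hinf
  exfalso
  apply hinf
  refine fin_of_trivial ρ hI fun x => ?_
  have h1 : (⊤ : Subgroup M) = ⊥ := by rw [← hk.cls]; exact Subgroup.upperCentralSeries_zero M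
  have h2 : x ∈ (⊥ : Subgroup M) := by rw [← h1]; trivial
  rw [Subgroup.mem_bot.1 h2, map_one]

theorem Pw_le {M : Type} [Group M] {r t : ℕ} (h : r ∣ t) : Pw M t ≤ Pw M r := by
  obtain ⟨q, rfl⟩ := h
  refine (Subgroup.closure_le _).2 ?_
  rintro x ⟨g, rfl⟩
  exact Subgroup.subset_closure ⟨g ^ q, by rw [← pow_mul, mul_comm]⟩

theorem poly_of_null (hAB : S_AB) (hRAIN : S_RAIN) (hERG : S_ERG) (s : ℕ) (hN : S_NULL s) : S_POLY s := by
  intro M _ k hk K _ _ _ ρ η hη
  have h1 : ∀ N : ℕ, ∃ (F : Finset M) (c : M → ℝ), (∀ x ∈ F, x ∈ Pw M (N + 1).factorial ∧ 0 ≤ c x) ∧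
      ∑ x ∈ F, c x = 1 ∧ ‖∑ x ∈ F, (c x : ℂ) • ρ x η‖ < 1 / ((N : ℝ) + 1) := fun N =>
    hAB M (Pw M (N + 1).factorial) K ρ η (hη _ (Nat.factorial_pos _)) _ (by positivity)
  choose F c hF hc hn using h1
  have h2 := hRAIN M k (fun _ => 1) (fun n => by simp) F (fun N y => (c N y : ℂ)) (fun N => ?_) ?_ K ρ η ?_
  · simpa using h2
  · rw [← hc N]
    refine le_of_eq (Finset.sum_congr rfl fun y hy => ?_)
    rw [Complex.norm_real, Real.norm_of_nonneg (hF N y hy).2]
  · intro K' _ _ _ σ hσ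
    by_cases hfd : FiniteDimensional ℂ K'
    · by_cases ht : Tor σ
      · right
        obtain ⟨r, hr, htr⟩ := ht
        intro ζ
        filter_upwards [eventually_ge_atTop r] with N hN
        have h3 : ∀ y ∈ F N, (c N y : ℂ) • σ y ζ = (c N y : ℂ) • ζ := by
          intro y hy
          rw [htr y (Pw_le (Nat.dvd_factorial hr (by omega)) (hF N y hy).1)]
          rfl
        rw [Finset.sum_congr rfl h3, ← Finset.sum_smul, ← Complex.ofReal_sum, hc N]
        simp
      · left
        intro ζ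
        simpa using hERG M k s hk K' σ hσ hfd ht ζ
    · left
      exact hN M k hk K' σ hσ hfd _ fun n => by simp
  · refine squeeze_zero_norm (fun N => (hn N).le) ?_
    exact tendsto_one_div_add_atTop_nhds_zero_nat

/-- all bounded coefficients in infinite dimension, and the polynomial mean ergodic theorem -/
theorem null_poly (hAB : S_AB) (hRAIN : S_RAIN) (hERG : S_ERG) (hstep : ∀ s, S_POLY s → S_NULL (s + 1)) (s : ℕ) :
    S_NULL s ∧ S_POLY s := by
  induction s with
  | zero => exact ⟨null_zero, poly_of_null hAB hRAIN hERG 0 null_zero⟩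
  | succ s ih => exact ⟨hstep s ih.2, poly_of_null hAB hRAIN hERG _ (hstep s ih.2)⟩

/-- Möbius is orthogonal to polynomial sequences in nilpotent groups of unitaries -/
theorem mob_all (hRAIN : S_RAIN) (hMOB : S_MOB) (hN : ∀ s, S_NULL s) {M : Type} [Group M] {k : ℕ → M} {s : ℕ}
    (hk : Seq M k s) {K : Type} [NormedAddCommGroup K] [InnerProductSpace ℂ K] [CompleteSpace K]
    (ρ : M →* (K ≃ₗᵢ[ℂ] K)) (η : K) {m r : ℕ} (hm : 0 < m) (hr : r < m) (θ : ℝ) :
    Tendsto (av fun n => (((ArithmeticFunction.moebius (m * n + r) : ℤ) : ℂ) * e (θ * n)) • ρ (k n) η)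
      atTop (𝓝 0) := by
  have hc : ∀ n : ℕ, ‖((ArithmeticFunction.moebius (m * n + r) : ℤ) : ℂ) * e (θ * n)‖ ≤ 1 := by
    intro n
    have h1 : ‖e (θ * n)‖ = 1 := by
      unfold e
      rw [show 2 * (Real.pi : ℂ) * Complex.I * ((θ * n : ℝ) : ℂ) = ((2 * Real.pi * (θ * n) : ℝ) : ℂ) * Complex.I by
        push_cast; ring]
      exact Complex.norm_exp_ofReal_mul_I _
    rw [norm_mul, h1, mul_one]
    have h2 := ArithmeticFunction.abs_moebius_le_one (n := m * n + r)
    rw [Complex.norm_intCast]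
    exact_mod_cast h2
  refine hRAIN M k _ hc (fun _ => ∅) (fun _ _ => 0) (fun N => by simp) ?_ K ρ η (by simp)
  intro K' _ _ _ σ hσ
  left
  by_cases hfd : FiniteDimensional ℂ K'
  · exact hMOB M k s hk K' σ hσ hfd m r hm hr θ
  · exact hN s M k hk K' σ hσ hfd _ hc

end Pool.Agent.U307.NIL
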