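import Pool.Agent.TH261.NP.Rain
import Pool.Agent.U307.NIL.Stm

/-! From irreducible representations to all representations of a group (package RAIN). -/

set_option autoImplicit false

open scoped CStarAlgebra ComplexOrder InnerProductSpace
open Filter Topology Finset

namespace Pool.Agent.U307.NIL

open Pool.Agent.W661.Nrm Pool.Agent.TH261.NP

section alg

variable {M : Type} [Group M] {K : Type} [NormedAddCommGroup K] [InnerProductSpace ℂ K] [CompleteSpace K]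

/-- `ρ x` as an operator -/
noncomputable def op (ρ : M →* (K ≃ₗᵢ[ℂ] K)) (x : M) : K →L[ℂ] K := ((ρ x : K ≃ₗᵢ[ℂ] K) : K →L[ℂ] K)

theorem op_apply (ρ : M →* (K ≃ₗᵢ[ℂ] K)) (x : M) (h : K) : op ρ x h = ρ x h := rfl

theorem op_unit (ρ : M →* (K ≃ₗᵢ[ℂ] K)) (x : M) : op ρ x ∈ unitary (K →L[ℂ] K) :=
  (Unitary.linearIsometryEquiv.symm (ρ x)).property

theorem op_mul (ρ : M →* (K ≃ₗᵢ[ℂ] K)) (x y : M) : op ρ (x * y) = op ρ x * op ρ y := by
  ext h
  rw [op_apply, map_mul]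
  rfl

theorem op_one (ρ : M →* (K ≃ₗᵢ[ℂ] K)) : op ρ 1 = 1 := by
  ext h
  rw [op_apply, map_one]
  rfl

theorem op_star (ρ : M →* (K ≃ₗᵢ[ℂ] K)) (x : M) : star (op ρ x) = op ρ x⁻¹ := by
  have h1 : star (op ρ x) * op ρ x = 1 := (Unitary.mem_iff.1 (op_unit ρ x)).1
  have h2 : op ρ x * op ρ x⁻¹ = 1 := by rw [← op_mul, mul_inv_cancel, op_one]
  exact left_inv_eq_right_inv h1 h2

/-- the C*-algebra generated by the representation -/
noncomputable def Alg (ρ : M →* (K ≃ₗᵢ[ℂ] K)) : StarSubalgebra ℂ (K →L[ℂ] K) :=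
  (StarAlgebra.adjoin ℂ (Set.range (op ρ))).topologicalClosure

instance algClosed (ρ : M →* (K ≃ₗᵢ[ℂ] K)) : IsClosed (Alg ρ : Set (K →L[ℂ] K)) :=
  StarSubalgebra.isClosed_topologicalClosure _

noncomputable instance algC (ρ : M →* (K ≃ₗᵢ[ℂ] K)) : CStarAlgebra (Alg ρ) :=
  StarSubalgebra.cstarAlgebra (Alg ρ)

theorem op_mem (ρ : M →* (K ≃ₗᵢ[ℂ] K)) (x : M) : op ρ x ∈ Alg ρ :=
  StarSubalgebra.le_topologicalClosure _ (StarAlgebra.subset_adjoin ℂ _ ⟨x, rfl⟩)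

/-- the unitaries in the C*-algebra -/
noncomputable def uA (ρ : M →* (K ≃ₗᵢ[ℂ] K)) : M →* unitary (Alg ρ) where
  toFun x := ⟨⟨op ρ x, op_mem ρ x⟩, by
    have h := Unitary.mem_iff.1 (op_unit ρ x)
    rw [Unitary.mem_iff]
    exact ⟨Subtype.ext h.1, Subtype.ext h.2⟩⟩
  map_one' := Subtype.ext (Subtype.ext (op_one ρ))
  map_mul' x y := Subtype.ext (Subtype.ext (op_mul ρ x y))

theorem uA_coe (ρ : M →* (K ≃ₗᵢ[ℂ] K)) (x : M) : ((uA ρ x : Alg ρ) : K →L[ℂ] K) = op ρ x := rfl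

theorem uA_norm (ρ : M →* (K ≃ₗᵢ[ℂ] K)) (x : M) : ‖(uA ρ x : Alg ρ)‖ ≤ 1 := by
  have : ‖(uA ρ x : Alg ρ)‖ = ‖op ρ x‖ := rfl
  rw [this]
  refine ContinuousLinearMap.opNorm_le_bound _ zero_le_one fun h => ?_
  rw [op_apply, LinearIsometryEquiv.norm_map, one_mul]

/-- the representation of the group which is given by a representation of the algebra -/
noncomputable def rep (ρ : M →* (K ≃ₗᵢ[ℂ] K)) {L : Type} [NormedAddCommGroup L] [InnerProductSpace ℂ L]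
    [CompleteSpace L] (π : Alg ρ →⋆ₐ[ℂ] (L →L[ℂ] L)) : M →* (L ≃ₗᵢ[ℂ] L) where
  toFun x := Unitary.linearIsometryEquiv ⟨π (uA ρ x : Alg ρ), by
    have h := Unitary.mem_iff.1 (uA ρ x).2
    rw [Unitary.mem_iff, ← map_star, ← map_mul, ← map_mul, h.1, h.2, map_one]
    exact ⟨rfl, rfl⟩⟩
  map_one' := by
    ext h
    change π (uA ρ 1 : Alg ρ) h = h
    rw [map_one]
    change π 1 h = h
    rw [map_one]
    rfl
  map_mul' x y := by
    ext h
    change π (uA ρ (x * y) : Alg ρ) h = π (uA ρ x : Alg ρ) (π (uA ρ y : Alg ρ) h)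
    rw [map_mul]
    change π ((uA ρ x : Alg ρ) * (uA ρ y : Alg ρ)) h = _
    rw [map_mul]
    rfl

theorem rep_apply (ρ : M →* (K ≃ₗᵢ[ℂ] K)) {L : Type} [NormedAddCommGroup L] [InnerProductSpace ℂ L]
    [CompleteSpace L] (π : Alg ρ →⋆ₐ[ℂ] (L →L[ℂ] L)) (x : M) (h : L) :
    rep ρ π x h = π (uA ρ x : Alg ρ) h := rfl

theorem commutes (ρ : M →* (K ≃ₗᵢ[ℂ] K)) {L : Type} [NormedAddCommGroup L] [InnerProductSpace ℂ L]
    [CompleteSpace L] (π : Alg ρ →⋆ₐ[ℂ] (L →L[ℂ] L)) (X : L →L[ℂ] L)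
    (hX : ∀ x h, X (rep ρ π x h) = rep ρ π x (X h)) (a : Alg ρ) : X * π a = π a * X := by
  have hu : ∀ x : M, X * π (uA ρ x : Alg ρ) = π (uA ρ x : Alg ρ) * X := by
    intro x
    ext h
    exact hX x h
  have h1 : ∀ b ∈ StarAlgebra.adjoin ℂ (Set.range (op ρ)), ∀ hb : b ∈ Alg ρ,
      X * π ⟨b, hb⟩ = π ⟨b, hb⟩ * X ∧ X * π (star ⟨b, hb⟩) = π (star ⟨b, hb⟩) * X := by
    intro b hb
    have hle : ∀ {b}, b ∈ StarAlgebra.adjoin ℂ (Set.range (op ρ)) → b ∈ Alg ρ := fun h =>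
      StarSubalgebra.le_topologicalClosure _ h
    induction hb using StarAlgebra.adjoin_induction with
    | mem b hb =>
      obtain ⟨x, rfl⟩ := hb
      intro hb'
      refine ⟨hu x, ?_⟩
      have e1 : star (⟨op ρ x, hb'⟩ : Alg ρ) = (uA ρ x⁻¹ : Alg ρ) := Subtype.ext (op_star ρ x)
      rw [e1]
      exact hu x⁻¹
    | algebraMap r =>
      intro hb'
      have e1 : (⟨algebraMap ℂ (K →L[ℂ] K) r, hb'⟩ : Alg ρ) = algebraMap ℂ (Alg ρ) r := rfl
      rw [e1]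
      have e2 : star (algebraMap ℂ (Alg ρ) r) = algebraMap ℂ (Alg ρ) (star r) :=
        (algebraMap_star_comm r).symm
      rw [e2]
      have e3 : ∀ r : ℂ, π (algebraMap ℂ (Alg ρ) r) = algebraMap ℂ (L →L[ℂ] L) r := fun r =>
        AlgHomClass.commutes π r
      rw [e3, e3]
      exact ⟨(Algebra.commutes _ _).symm, (Algebra.commutes _ _).symm⟩
    | add b c hb hc ihb ihc =>
      intro hbc
      obtain ⟨p1, p2⟩ := ihb (hle hb)
      obtain ⟨q1, q2⟩ := ihc (hle hc)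
      have e1 : (⟨b + c, hbc⟩ : Alg ρ) = ⟨b, hle hb⟩ + ⟨c, hle hc⟩ := rfl
      rw [e1, star_add, map_add, map_add, mul_add, mul_add, add_mul, add_mul, p1, q1, p2, q2]
      exact ⟨rfl, rfl⟩
    | mul b c hb hc ihb ihc =>
      intro hbc
      obtain ⟨p1, p2⟩ := ihb (hle hb)
      obtain ⟨q1, q2⟩ := ihc (hle hc)
      have e1 : (⟨b * c, hbc⟩ : Alg ρ) = ⟨b, hle hb⟩ * ⟨c, hle hc⟩ := rfl
      rw [e1, star_mul, map_mul, map_mul]
      refine ⟨?_, ?_⟩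
      · rw [← mul_assoc, p1, mul_assoc, q1, mul_assoc]
      · rw [← mul_assoc, q2, mul_assoc, p2, mul_assoc]
    | star b hb ihb =>
      intro hb'
      obtain ⟨p1, p2⟩ := ihb (hle hb)
      have e1 : (⟨star b, hb'⟩ : Alg ρ) = star ⟨b, hle hb⟩ := rfl
      rw [e1, star_star]
      exact ⟨p2, p1⟩
  -- closure
  obtain ⟨a, ha⟩ := a
  have ha' : a ∈ closure ((StarAlgebra.adjoin ℂ (Set.range (op ρ)) : StarSubalgebra ℂ (K →L[ℂ] K)) :
      Set (K →L[ℂ] K)) := ha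
  rw [mem_closure_iff_seq_limit] at ha'
  obtain ⟨b, hb, hlim⟩ := ha'
  have hlim' : Tendsto (fun n => (⟨b n, StarSubalgebra.le_topologicalClosure _ (hb n)⟩ : Alg ρ)) atTop
      (𝓝 ⟨a, ha⟩) := tendsto_subtype_rng.2 hlim
  have hπ : Continuous π := map_continuous π
  have h2 := (hπ.tendsto _).comp hlim'
  have h3 := (tendsto_const_nhds (x := X)).mul h2
  have h4 := h2.mul (tendsto_const_nhds (x := X))
  refine tendsto_nhds_unique h3 (h4.congr fun n => ?_)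
  exact (h1 (b n) (hb n) _).1.symm

theorem irr_rep (ρ : M →* (K ≃ₗᵢ[ℂ] K)) {L : Type} [NormedAddCommGroup L] [InnerProductSpace ℂ L]
    [CompleteSpace L] (π : Alg ρ →⋆ₐ[ℂ] (L →L[ℂ] L)) (hπ : Irr π) : IrrU (rep ρ π) := by
  intro X hX
  obtain ⟨c, hc⟩ := hπ X (commutes ρ π X hX)
  exact ⟨c, fun h => by rw [hc]; rfl⟩

end alg

theorem pi_star_mul {A : Type} [CStarAlgebra A] {L : Type} [NormedAddCommGroup L] [InnerProductSpace ℂ L]
    [CompleteSpace L] (π : A →⋆ₐ[ℂ] (L →L[ℂ] L)) (x b : A) (ω : L) :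
    ⟪ω, π (star x * x * b) ω⟫_ℂ = ⟪π x ω, π x (π b ω)⟫_ℂ := by
  rw [mul_assoc, map_mul, map_star]
  change ⟪ω, (star (π x)) (π (x * b) ω)⟫_ℂ = _
  rw [ContinuousLinearMap.star_eq_adjoint, ContinuousLinearMap.adjoint_inner_right, map_mul]
  rfl

theorem t_RAIN : S_RAIN := by
  intro M _ x c hc F β hβ hirr K _ _ _ ρ η hη
  let _ : PartialOrder (Alg ρ) := CStarAlgebra.spectralOrder (Alg ρ)
  have _ : StarOrderedRing (Alg ρ) := CStarAlgebra.spectralOrderedRing (Alg ρ)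
  set X : ℕ → Alg ρ := av fun n => c n • (uA ρ (x n) : Alg ρ) with hX
  set B : ℕ → Alg ρ := fun N => ∑ y ∈ F N, β N y • (uA ρ y : Alg ρ) with hB
  have hXn : ∀ N, ‖X N‖ ≤ 1 := by
    intro N
    rw [hX, av]
    rcases Nat.eq_zero_or_pos N with h0 | h0
    · subst h0; simp
    have hN : (0 : ℝ) < N := by exact_mod_cast h0
    rw [norm_smul, norm_inv, Complex.norm_natCast]
    have h1 : ‖∑ n ∈ range N, c n • (uA ρ (x n) : Alg ρ)‖ ≤ N := by
      refine (norm_sum_le _ _).trans ?_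
      calc ∑ n ∈ range N, ‖c n • (uA ρ (x n) : Alg ρ)‖ ≤ ∑ n ∈ range N, (1 : ℝ) := by
            refine sum_le_sum fun n _ => ?_
            rw [norm_smul]
            exact mul_le_one₀ (hc n) (norm_nonneg _) (uA_norm ρ _)
        _ = N := by simp
    calc (N : ℝ)⁻¹ * ‖∑ n ∈ range N, c n • (uA ρ (x n) : Alg ρ)‖ ≤ (N : ℝ)⁻¹ * N := by gcongr
      _ = 1 := inv_mul_cancel₀ hN.ne'
  have hBn : ∀ N, ‖B N‖ ≤ 1 := by
    intro N
    refine (norm_sum_le _ _).trans ((sum_le_sum fun y _ => ?_).trans (hβ N))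
    rw [norm_smul]
    calc ‖β N y‖ * ‖(uA ρ y : Alg ρ)‖ ≤ ‖β N y‖ * 1 := by gcongr; exact uA_norm ρ _
      _ = _ := mul_one _
  have h1n : ‖(1 : Alg ρ)‖ ≤ 1 := by
    have := uA_norm ρ (1 : M)
    rw [map_one] at this
    exact this
  set Y : ℕ → Alg ρ := fun N => star (X N) * X N * (1 - B N) with hY
  have hYn : ∀ N, ‖Y N‖ ≤ 2 := by
    intro N
    calc ‖Y N‖ ≤ ‖star (X N) * X N‖ * ‖1 - B N‖ := norm_mul_le _ _
      _ ≤ 1 * 2 := by
          gcongr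
          · rw [CStarRing.norm_star_mul_self]
            exact mul_le_one₀ (hXn N) (norm_nonneg _) (hXn N)
          · calc ‖1 - B N‖ ≤ ‖(1 : Alg ρ)‖ + ‖B N‖ := norm_sub_le _ _
              _ ≤ 1 + 1 := add_le_add h1n (hBn N)
              _ = 2 := by norm_num
      _ = 2 := by norm_num
  -- the images
  have hXπ : ∀ (L : Type) [NormedAddCommGroup L] [InnerProductSpace ℂ L] [CompleteSpace L]
      (π : Alg ρ →⋆ₐ[ℂ] (L →L[ℂ] L)) (N : ℕ) (ζ : L),
      π (X N) ζ = av (fun n => c n • rep ρ π (x n) ζ) N := by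
    intro L _ _ _ π N ζ
    simp only [hX, av]
    rw [map_smul, map_sum, ContinuousLinearMap.smul_apply, ContinuousLinearMap.sum_apply]
    congr 1
    exact sum_congr rfl fun n _ => by rw [map_smul]; rfl
  have hBπ : ∀ (L : Type) [NormedAddCommGroup L] [InnerProductSpace ℂ L] [CompleteSpace L]
      (π : Alg ρ →⋆ₐ[ℂ] (L →L[ℂ] L)) (N : ℕ) (ζ : L),
      π (B N) ζ = ∑ y ∈ F N, β N y • rep ρ π y ζ := by
    intro L _ _ _ π N ζ
    simp only [hB]
    rw [map_sum, ContinuousLinearMap.sum_apply]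
    exact sum_congr rfl fun n _ => by rw [map_smul]; rfl
  have hcon : ∀ (L : Type) [NormedAddCommGroup L] [InnerProductSpace ℂ L] [CompleteSpace L]
      (π : Alg ρ →⋆ₐ[ℂ] (L →L[ℂ] L)) (a : Alg ρ) (ζ : L), ‖π a ζ‖ ≤ ‖a‖ * ‖ζ‖ := by
    intro L _ _ _ π a ζ
    refine ((π a).le_opNorm ζ).trans ?_
    gcongr
    exact NonUnitalStarAlgHom.norm_apply_le π a
  -- the pure states
  have hpure : ∀ φ : Alg ρ →ₚ[ℂ] ℂ, Pure φ → Tendsto (fun N => φ (Y N)) atTop (𝓝 0) := by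
    intro φ hφ
    set π := φ.gnsStarAlgHom with hπ
    set ω := om φ with hω
    have hval : ∀ N, φ (Y N) = ⟪π (X N) ω, π (X N) (π (1 - B N) ω)⟫_ℂ := by
      intro N
      rw [← gns_inner φ (Y N)]
      exact pi_star_mul π (X N) (1 - B N) ω
    rcases hirr φ.GNS (rep ρ π) (irr_rep ρ π (irr_of_pure hφ)) with h | h
    · have h1 := h ω
      rw [tendsto_zero_iff_norm_tendsto_zero] at h1
      have h2 : Tendsto (fun N => ‖av (fun n => c n • rep ρ π (x n) ω) N‖ * (2 * ‖ω‖)) atTop (𝓝 0) := by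
        have := h1.mul_const (2 * ‖ω‖)
        rwa [zero_mul] at this
      refine squeeze_zero_norm (fun N => ?_) h2
      rw [hval N, ← hXπ φ.GNS π N ω]
      refine (norm_inner_le_norm _ _).trans ?_
      gcongr
      calc ‖π (X N) (π (1 - B N) ω)‖ ≤ ‖X N‖ * ‖π (1 - B N) ω‖ := hcon _ π _ _
        _ ≤ 1 * (‖1 - B N‖ * ‖ω‖) := by
            gcongr
            · exact hXn N
            · exact hcon _ π _ _
        _ ≤ 1 * (2 * ‖ω‖) := by
            gcongr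
            calc ‖1 - B N‖ ≤ ‖(1 : Alg ρ)‖ + ‖B N‖ := norm_sub_le _ _
              _ ≤ 1 + 1 := add_le_add h1n (hBn N)
              _ = 2 := by norm_num
        _ = _ := one_mul _
    · refine tendsto_const_nhds.congr' ?_
      filter_upwards [h ω] with N hN
      rw [hval N, map_sub, map_one]
      have : (1 - π (B N) : φ.GNS →L[ℂ] φ.GNS) ω = 0 := by
        change ω - π (B N) ω = 0
        rw [hBπ φ.GNS π N ω, hN, sub_self]
      rw [this, map_zero, inner_zero_right]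
  -- the identical representation
  have h5 := rain hYn hpure (vec (Alg ρ).subtype η)
  have hrep : ∀ y : M, ∀ ζ : K, rep ρ (Alg ρ).subtype y ζ = ρ y ζ := fun y ζ => rfl
  set π0 : Alg ρ →⋆ₐ[ℂ] (K →L[ℂ] K) := (Alg ρ).subtype with hπ0
  have hval : ∀ N, vec π0 η (Y N) = ⟪π0 (X N) η, π0 (X N) η⟫_ℂ - ⟪π0 (X N) η, π0 (X N) (π0 (B N) η)⟫_ℂ := by
    intro N
    rw [vec_apply]
    refine (pi_star_mul π0 (X N) (1 - B N) η).trans ?_
    rw [map_sub, map_one]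
    change ⟪π0 (X N) η, π0 (X N) (η - π0 (B N) η)⟫_ℂ = _
    rw [map_sub, inner_sub_right]
  have hsecond : Tendsto (fun N => ⟪π0 (X N) η, π0 (X N) (π0 (B N) η)⟫_ℂ) atTop (𝓝 0) := by
    have h1 : Tendsto (fun N => ‖η‖ * ‖∑ y ∈ F N, β N y • ρ y η‖) atTop (𝓝 0) := by
      have := (tendsto_zero_iff_norm_tendsto_zero.1 hη).const_mul ‖η‖
      rwa [mul_zero] at this
    refine squeeze_zero_norm (fun N => ?_) h1
    refine (norm_inner_le_norm _ _).trans ?_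
    gcongr
    · calc ‖π0 (X N) η‖ ≤ ‖X N‖ * ‖η‖ := hcon _ π0 _ _
        _ ≤ 1 * ‖η‖ := by gcongr; exact hXn N
        _ = _ := one_mul _
    · calc ‖π0 (X N) (π0 (B N) η)‖ ≤ ‖X N‖ * ‖π0 (B N) η‖ := hcon _ π0 _ _
        _ ≤ 1 * ‖π0 (B N) η‖ := by gcongr; exact hXn N
        _ = ‖∑ y ∈ F N, β N y • ρ y η‖ := by rw [one_mul, hBπ K π0 N η]; rfl
  have h6 : Tendsto (fun N => ⟪π0 (X N) η, π0 (X N) η⟫_ℂ) atTop (𝓝 0) := by
    have h7 := h5.add hsecond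
    rw [add_zero] at h7
    refine h7.congr fun N => ?_
    rw [hval N, sub_add_cancel]
  have h8 : Tendsto (fun N => ‖π0 (X N) η‖ ^ 2) atTop (𝓝 0) := by
    have h7 := (tendsto_zero_iff_norm_tendsto_zero.1 h6)
    refine h7.congr fun N => ?_
    rw [inner_self_eq_norm_sq_to_K, norm_pow]
    simp
  rw [tendsto_zero_iff_norm_tendsto_zero]
  have h9 := h8.sqrt
  rw [Real.sqrt_zero] at h9
  refine h9.congr fun N => ?_
  rw [Real.sqrt_sq (norm_nonneg _), hXπ K π0 N η]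
  rfl

end Pool.Agent.U307.NIL
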