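import Pool.Agent.U307.NIL.Stm

/-!
# Project NIL: dilations of polynomial sequences in nilpotent groups (helper307)

Package DIL is a theorem `t_DIL : S_DIL`.

Plan. (U) Let `H` be a nilpotent group and `T : H →* H`, and `DT x := x⁻¹ * T x`. Suppose that for some `K` all
`DT^[K] x`, `x ∈ H`, are in `commutator H`. Then for some `L` all `DT^[L] x = 1`, `x ∈ H`. Induction on the class `c`
(use `lowerCentralSeries`, which is invariant under `T`): let `A = lowerCentralSeries H (c-1)` be the last nontrivial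
term (central). By the induction hypothesis for `H ⧸ A`: `DT^[L'] x ∈ A` for all `x`. If `a, b ∈ H`, `⁅a, b⁆ ∈ A` is
multiplicative in `a ∈ lowerCentralSeries H (c-2)` and in `b ∈ H`, trivial if `a ∈ A` or `b ∈ A`, so
`T ⁅a,b⁆ = ⁅a DT a, b DT b⁆ = ⁅a,b⁆ ⁅a, DT b⁆ ⁅DT a, b⁆ ⁅DT a, DT b⁆`, and by induction on `i + j` the element
`DT^[i+j] ⁅a,b⁆ = 1` if `DT^[i] a ∈ A` and `DT^[j] b ∈ A`. So `DT^[2L'] = 1` on `A`, which is generated by such
commutators (`DT` is a homomorphism on the abelian `A`). So `L = 3L'`. Base case `c = 1`: `commutator H = ⊥`.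
(V) If `T` satisfies the hypothesis of (U), so does `T^q` (on `H ⧸ commutator H`: `T^q - 1 = (T - 1)(...)`).
(W) `H` = the subgroup of `ℕ → G` generated by the shifts of `k`, `T` the shift: `H` is nilpotent (`ℕ → G` is), the
generators `x` satisfy `DT^[K] x = 1`, so all `x ∈ H` satisfy `DT^[K] x ∈ commutator H`. Apply (V), (U) with `T^q`:
`DTq^[L] x = 1` for all `x ∈ H`, in particular for `x = k (· + t)`; evaluate at the points `q * n`.
-/

set_option autoImplicit false

namespace Pool.Agent.U307.NIL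

/-- DIL: dilations of polynomial sequences in nilpotent groups are polynomial. -/
def S_DIL : Prop :=
  ∀ (G : Type) [Group G] [Group.IsNilpotent G] (k : ℕ → G) (K : ℕ), D^[K] k = (fun _ => 1) →
    ∀ q t : ℕ, ∃ K' : ℕ, D^[K'] (fun n => k (q * n + t)) = fun _ => 1

end Pool.Agent.U307.NIL
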