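import Pool.Agent.U307.NIL.Poly
import Pool.Agent.U307.NIL.Stm2
import Pool.Agent.TH261.NP.TopS

/-!
# Project NIL: matrix coefficients of polynomial sequences in nilpotent groups of unitaries (helper307)
-/

set_option autoImplicit false
set_option linter.unusedSectionVars false

open Filter Topology Finset
open scoped InnerProductSpace Polynomial

namespace Pool.Agent.U307.NIL

open Pool.Agent.Helper188.NCM Pool.Agent.TH261.AB Pool.Agent.TH261.NP Pool.Agent.H500R2.PR.TH6

/-- the conclusion of `mob_all` -/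
def MobAll : Prop :=
  ∀ (M : Type) [Group M] (k : ℕ → M) (s : ℕ), Seq M k s → ∀ (K : Type) [NormedAddCommGroup K]
    [InnerProductSpace ℂ K] [CompleteSpace K] (ρ : M →* (K ≃ₗᵢ[ℂ] K)) (η : K) (m r : ℕ), 0 < m → r < m → ∀ θ : ℝ,
    Tendsto (av fun n => (((ArithmeticFunction.moebius (m * n + r) : ℤ) : ℂ) * e (θ * n)) • ρ (k n) η)
      atTop (𝓝 0)

section dd

variable {G : Type} [Group G]

theorem D_mul_left (a : G) (k : ℕ → G) : D (fun n => a * k n) = D k := by
  funext n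
  simp only [D, mul_inv_rev]
  group

theorem D_one : D (fun _ => (1 : G)) = fun _ => 1 := by
  funext n
  simp [D]

theorem D_iter_one (j : ℕ) : D^[j] (fun _ => (1 : G)) = fun _ => 1 := by
  induction j with
  | zero => rfl
  | succ j ih => rw [Function.iterate_succ_apply, D_one, ih]

theorem D_up {k : ℕ → G} {i j : ℕ} (h : D^[i] k = fun _ => 1) (hij : i ≤ j) : D^[j] k = fun _ => 1 := by
  obtain ⟨d, rfl⟩ := Nat.exists_eq_add_of_le hij
  rw [add_comm, Function.iterate_add_apply, h, D_iter_one]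

theorem D_hom {H : Type} [Group H] (f : G →* H) (k : ℕ → G) (j : ℕ) : D^[j] (fun n => f (k n)) = fun n => f (D^[j] k n) := by
  induction j generalizing k with
  | zero => rfl
  | succ j ih =>
    rw [Function.iterate_succ_apply, Function.iterate_succ_apply]
    have : D (fun n => f (k n)) = fun n => f (D k n) := by
      funext n
      simp [D]
    rw [this, ih]

theorem D_prod {H : Type} [Group H] (k : ℕ → G) (l : ℕ → H) (j : ℕ) :
    D^[j] (fun n => ((k n, l n) : G × H)) = fun n => (D^[j] k n, D^[j] l n) := by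
  induction j generalizing k l with
  | zero => rfl
  | succ j ih =>
    rw [Function.iterate_succ_apply, Function.iterate_succ_apply, Function.iterate_succ_apply]
    have : D (fun n => ((k n, l n) : G × H)) = fun n => (D k n, D l n) := by
      funext n
      simp [D]
    rw [this, ih]

end dd

/-- Möbius orthogonality for polynomial sequences in nilpotent groups -/
theorem mob_nil (hA : MobAll) {G : Type} [Group G] [Group.IsNilpotent G] {v : ℕ → G} {j : ℕ}
    (hv : D^[j] v = fun _ => 1) {K : Type} [NormedAddCommGroup K] [InnerProductSpace ℂ K] [CompleteSpace K]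
    (ρ : G →* (K ≃ₗᵢ[ℂ] K)) (η : K) {m r : ℕ} (hm : 0 < m) (hr : r < m) (θ : ℝ) :
    Tendsto (vav fun n => mob (m * n + r) • (ee (n * θ) • ρ (v n) η)) atTop (𝓝 0) := by
  set k0 : ℕ → G := fun n => (v 0)⁻¹ * v n with hk0
  set M : Subgroup G := Subgroup.closure (Set.range k0) with hM
  set k : ℕ → M := fun n => ⟨k0 n, Subgroup.subset_closure ⟨n, rfl⟩⟩ with hk
  have hkc : (fun n => M.subtype (k n)) = k0 := rfl
  have hD : D^[j + 1] k0 = fun _ => 1 := by
    rw [Function.iterate_succ_apply, hk0, D_mul_left, ← Function.iterate_succ_apply]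
    exact D_up hv (Nat.le_succ j)
  obtain ⟨s, hs⟩ := (inferInstance : Group.IsNilpotent M).nilpotent
  have hSeq : Seq M k s := by
    refine ⟨Subtype.ext ?_, ⟨j + 1, ?_⟩, ?_, hs⟩
    · show (v 0)⁻¹ * v 0 = 1
      rw [inv_mul_cancel]
    · funext n
      apply Subtype.ext
      have h1 := D_hom M.subtype k (j + 1)
      rw [hkc, hD] at h1
      exact (congrFun h1 n).symm
    · have h1 : Set.range k = ((↑) : M → G) ⁻¹' (Set.range k0) := by
        ext x
        constructor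
        · rintro ⟨n, rfl⟩
          exact ⟨n, rfl⟩
        · rintro ⟨n, hn⟩
          exact ⟨n, Subtype.ext hn⟩
      rw [h1]
      exact Subgroup.closure_closure_coe_preimage
  have h2 := hA M k s hSeq K (ρ.comp M.subtype) η m r hm hr θ
  have h3 := ((ρ (v 0)).continuous.tendsto 0).comp h2
  rw [map_zero] at h3
  refine h3.congr fun N => ?_
  rw [Function.comp_apply, av, vav, map_smul, map_sum]
  congr 1
  refine Finset.sum_congr rfl fun n _ => ?_
  rw [map_smul, smul_smul]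
  have h4 : ρ (v 0) ((ρ.comp M.subtype) (k n) η) = ρ (v n) η := by
    have : v n = v 0 * k0 n := by rw [hk0]; simp
    rw [this, map_mul]
    rfl
  rw [h4]
  congr 2
  unfold e ee
  rw [mul_comm θ]

/-- matrix coefficients of polynomial sequences in nilpotent groups, with a linear phase -/
def IsNP (F : ℕ → ℂ) : Prop :=
  ∃ (K : Type) (_ : NormedAddCommGroup K) (_ : InnerProductSpace ℂ K) (_ : CompleteSpace K)
    (G : Type) (_ : Group G) (_ : Group.IsNilpotent G) (ρ : G →* (K ≃ₗᵢ[ℂ] K)) (v : ℕ → G) (j : ℕ) (θ : ℝ) (ξ η : K),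
    D^[j] v = (fun _ => 1) ∧ ∀ n : ℕ, F n = ee (n * θ) * ⟪η, ρ (v n) ξ⟫_ℂ

theorem IsNP.const (c : ℂ) : IsNP fun _ => c := by
  refine ⟨ℂ, inferInstance, inferInstance, inferInstance, PUnit, inferInstance, inferInstance, 1, fun _ => 1, 0, 0,
    c, 1, rfl, fun n => ?_⟩
  simp [ee_zero]

theorem IsNP.mob (hA : MobAll) {F : ℕ → ℂ} (h : IsNP F) {m r : ℕ} (hm : 0 < m) (hr : r < m) :
    Tendsto (vav fun j => mob (m * j + r) * F j) atTop (𝓝 0) := by
  obtain ⟨K, i1, i2, i3, G, i4, i5, ρ, v, j, θ, ξ, η, hv, hF⟩ := h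
  have h1 := mob_nil hA hv ρ ξ hm hr θ
  have h2 := (continuous_const.inner continuous_id : Continuous fun y : K =>
    inner ℂ η y).tendsto 0
  rw [inner_zero_right] at h2
  refine (h2.comp h1).congr fun N => ?_
  rw [Function.comp_apply, vav, vav, inner_smul_right, inner_sum]
  congr 1
  refine Finset.sum_congr rfl fun j _ => ?_
  rw [inner_smul_right, inner_smul_right, hF]

theorem IsNP.dil (hD : S_DIL) {F : ℕ → ℂ} (h : IsNP F) (q t : ℕ) : IsNP fun n => F (q * n + t) := by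
  obtain ⟨K, i1, i2, i3, G, i4, i5, ρ, v, j, θ, ξ, η, hv, hF⟩ := h
  obtain ⟨j', hj'⟩ := hD G v j hv q t
  refine ⟨K, i1, i2, i3, G, i4, i5, ρ, fun n => v (q * n + t), j', q * θ, ee (t * θ) • ξ, η, hj', fun n => ?_⟩
  show F (q * n + t) = ee (n * (q * θ)) * ⟪η, ρ (v (q * n + t)) (ee (t * θ) • ξ)⟫_ℂ
  rw [hF, map_smul, inner_smul_right, ← mul_assoc, ← ee_add]
  congr 2
  push_cast
  ring

/-- the tensor product of two representations -/
noncomputable def tR {G H K1 K2 : Type} [Group G] [Group H] [NormedAddCommGroup K1] [InnerProductSpace ℂ K1]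
    [CompleteSpace K1] [NormedAddCommGroup K2] [InnerProductSpace ℂ K2] [CompleteSpace K2]
    (ρ : G →* (K1 ≃ₗᵢ[ℂ] K1)) (τ : H →* (K2 ≃ₗᵢ[ℂ] K2)) : G × H →* (KK K1 K2 ≃ₗᵢ[ℂ] KK K1 K2) :=
  MonoidHom.mk' (fun p => tV (ρ p.1) (τ p.2)) (by
    intro p q
    refine LinearIsometryEquiv.ext fun z => ?_
    have h1 := tV_mul (ρ p.1) (ρ q.1) (ρ (p * q).1) (τ p.2) (τ q.2) (τ (p * q).2) (θ1 := 0) (θ2 := 0)
      (fun x => by rw [ee_zero, one_smul, Prod.fst_mul, map_mul]; rfl)
      (fun x => by rw [ee_zero, one_smul, Prod.snd_mul, map_mul]; rfl) z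
    rw [add_zero, ee_zero, one_smul] at h1
    exact h1.symm)

theorem IsNP.mul {F F' : ℕ → ℂ} (h : IsNP F) (h' : IsNP F') : IsNP fun n => F n * F' n := by
  obtain ⟨K, i1, i2, i3, G, i4, i5, ρ, v, j, θ, ξ, η, hv, hF⟩ := h
  obtain ⟨K', i1', i2', i3', G', i4', i5', ρ', v', j', θ', ξ', η', hv', hF'⟩ := h'
  refine ⟨KK K K', inferInstance, inferInstance, inferInstance, G × G', inferInstance, inferInstance, tR ρ ρ',
    fun n => (v n, v' n), max j j', θ + θ', tt ξ ξ', tt η η', ?_, fun n => ?_⟩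
  · rw [D_prod, D_up hv (le_max_left _ _), D_up hv' (le_max_right _ _)]
    rfl
  · show F n * F' n = ee (n * (θ + θ')) * ⟪tt η η', tV (ρ (v n)) (ρ' (v' n)) (tt ξ ξ')⟫_ℂ
    rw [hF, hF', mul_add, ee_add, tV_tt, inner_tt]
    ring

theorem IsNP.phase {F : ℕ → ℂ} (h : IsNP F) (τ : ℝ) : IsNP fun n => ee (n * τ) * F n := by
  obtain ⟨K, i1, i2, i3, G, i4, i5, ρ, v, j, θ, ξ, η, hv, hF⟩ := h
  refine ⟨K, i1, i2, i3, G, i4, i5, ρ, v, j, τ + θ, ξ, η, hv, fun n => ?_⟩
  show ee (n * τ) * F n = _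
  rw [hF, ← mul_assoc, ← ee_add, mul_add]

/-- along residue classes -/
def RNP (F : ℕ → ℂ) : Prop := ∃ M : ℕ, 0 < M ∧ ∀ r < M, IsNP fun n => F (M * n + r)

theorem RNP.const (c : ℂ) : RNP fun _ => c := ⟨1, one_pos, fun _ _ => IsNP.const c⟩

theorem RNP.dil (hD : S_DIL) {F : ℕ → ℂ} {M : ℕ} (hM : 0 < M) (h : ∀ r < M, IsNP fun n => F (M * n + r)) {q : ℕ}
    (r : ℕ) : IsNP fun n => F (M * q * n + r) := by
  have h1 := (h (r % M) (Nat.mod_lt _ hM)).dil hD q (r / M)
  convert h1 using 2 with n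
  have h2 := Nat.div_add_mod r M
  congr 1
  calc M * q * n + r = M * q * n + (M * (r / M) + r % M) := by rw [h2]
    _ = _ := by ring

theorem RNP.mul (hD : S_DIL) {F F' : ℕ → ℂ} (h : RNP F) (h' : RNP F') : RNP fun n => F n * F' n := by
  obtain ⟨M, hM, h⟩ := h
  obtain ⟨M', hM', h'⟩ := h'
  refine ⟨M * M', Nat.mul_pos hM hM', fun r _ => ?_⟩
  have h1 := RNP.dil hD hM h (q := M') r
  have h2 := RNP.dil hD hM' h' (q := M) r
  rw [mul_comm M' M] at h2
  exact h1.mul h2

theorem RNP.mob (hA : MobAll) {F : ℕ → ℂ} (h : RNP F) {C : ℝ} (hC : 0 ≤ C) (hF : ∀ n, ‖F n‖ ≤ C) :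
    Tendsto (vav fun n => mob n * F n) atTop (𝓝 0) := by
  obtain ⟨M, hM, h⟩ := h
  refine vav_of_residues hC (fun n => ?_) hM fun r hr => (h r hr).mob hA hM hr
  rw [norm_mul]
  calc _ ≤ 1 * C := by
        gcongr
        · exact norm_mob_le _
        · exact hF n
    _ = C := one_mul C

end Pool.Agent.U307.NIL
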